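import Pool.Agent.H62.LP.T1
import Pool.Agent.H62.LP.T4

/-!
# Row GBI of the board rwl_modules: good blocks, independence
-/

set_option autoImplicit false

open MeasureTheory ProbabilityTheory Filter Topology
open scoped ENNReal NNReal

namespace Pool.Agent.H32.LP.GBI

open Pool.Agent.H62.LP

/-- from one family of points to the configurations -/
def Psi (X : Option (Fin 20) × Lp → ℕ) : Om := (fun c => X (none, c), fun j c => X (some j, c))

theorem meas_Psi : Measurable Psi := by
  refine Measurable.prodMk (measurable_pi_lambda _ fun c => measurable_pi_apply _)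
    (measurable_pi_lambda _ fun j => measurable_pi_lambda _ fun c => measurable_pi_apply _)

/-- from the configurations to one family of points -/
def Phi (p : Om) (x : Option (Fin 20) × Lp) : ℕ :=
  match x.1 with
  | none => p.1 x.2
  | some j => p.2 j x.2

theorem meas_Phi : Measurable Phi := by
  refine measurable_pi_lambda _ fun x => ?_
  rcases x with ⟨_ | j, c⟩
  · exact (measurable_pi_apply c).comp measurable_fst
  · exact (measurable_pi_apply c).comp ((measurable_pi_apply j).comp measurable_snd)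

theorem Psi_Phi (ω : Om) : Psi (Phi ω) = ω := rfl

theorem countable_lp : Countable Lp := by
  unfold Pool.Agent.H62.LP.Lp Cycle
  infer_instance

theorem nm_sc (n : ℕ) (a b : V3) : nm (sc n a - sc n b) = n * nm (a - b) := by
  have e : ∀ i : Fin 3, ((sc n a - sc n b) i).natAbs = n * ((a - b) i).natAbs := by
    intro i
    simp only [sc, Pi.sub_apply]
    rw [← mul_sub, Int.natAbs_mul, Int.natAbs_natCast]
  apply le_antisymm
  · unfold nm
    refine Finset.sup_le fun i hi => ?_
    rw [e i]
    exact Nat.mul_le_mul_left n (Finset.le_sup (f := fun i => ((a - b) i).natAbs) hi)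
  · obtain ⟨i, hi, hi2⟩ := Finset.exists_mem_eq_sup Finset.univ ⟨(0 : Fin 3), Finset.mem_univ _⟩
      (fun i => ((a - b) i).natAbs)
    unfold nm
    rw [hi2]
    change n * ((a - b) i).natAbs ≤ _
    rw [← e i]
    exact Finset.le_sup (f := fun i => ((sc n a - sc n b) i).natAbs) hi

theorem nm_tri (a b c : V3) : nm (a - c) ≤ nm (b - a) + nm (b - c) := by
  unfold nm
  refine Finset.sup_le fun i hi => ?_
  have h1 := Finset.le_sup (f := fun i => ((b - a) i).natAbs) hi
  have h2 := Finset.le_sup (f := fun i => ((b - c) i).natAbs) hi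
  simp only [Pi.sub_apply] at h1 h2 ⊢
  omega

theorem pf_GBI (hCUR : T_CUR) (hIND : T_IND) (hGBM : T_GBM) : T_GBI := by
  intro M' n β K D hn hβ hD hK α ε V hV
  have := countable_lp
  set q : Option (Fin 20) × Lp → ℝ≥0 := fun x => match x.1 with
    | none => inten 3 α x.2
    | some _ => inten 3 ε x.2 with hq
  have hmap : (PP α ε).map Phi = pois q := by
    refine Eq.trans ?_ ((hCUR Pool.Agent.H62.LP.Lp 20 (inten 3 α) (inten 3 ε)).2.trans ?_)
    · unfold PP soup
      congr 1
      funext p x
      rcases x with ⟨_ | j, c⟩ <;> rfl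
    · congr 1
      funext x
      rcases x with ⟨_ | j, c⟩ <;> rfl
  set E : V3 → Set (Option (Fin 20) × Lp → ℕ) := fun v => {X | ¬ GoodB M' n β D v (Psi X)} with hE
  have hEm : ∀ v, MeasurableSet (E v) := fun v =>
    meas_Psi ((hGBM M' n β K D hD hK v).1.compl)
  have hpre : ∀ v, PP α ε {ω | ¬ GoodB M' n β D v ω} = pois q (E v) := by
    intro v
    rw [← hmap, Measure.map_apply meas_Phi (hEm v)]
    rfl
  set I : V3 → Set (Option (Fin 20) × Lp) := fun v =>
    {x | x.2 ≠ Cycle.nil ∧ ∀ u ∈ x.2, nm (u - sc n v) ≤ (K + 2) * (β * n)} with hI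
  have hdis : ∀ i j : {v // v ∈ V}, i ≠ j → Disjoint (I i) (I j) := by
    rintro ⟨v, hv⟩ ⟨w, hw⟩ hne
    have hne' : v ≠ w := fun h => hne (Subtype.ext h)
    rw [Set.disjoint_left]
    rintro ⟨o, c⟩ ⟨h1, h2⟩ ⟨-, h3⟩
    obtain ⟨u, hu⟩ : ∃ u, u ∈ c := by
      induction c using Cycle.induction_on with
      | nil => exact absurd rfl h1
      | cons a l _ => exact ⟨a, by simp⟩
    have h4 := h2 u hu
    have h5 := h3 u hu
    have h6 := nm_tri (sc n v) u (sc n w)
    rw [nm_sc] at h6
    have h7 := hV v hv w hw hne'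
    have h8 : n * (2 * (K + 2) * β) < n * nm (v - w) := Nat.mul_lt_mul_of_pos_left h7 (by omega)
    simp only at h4 h5
    nlinarith
  have hloc : ∀ (i : {v // v ∈ V}) (N N' : Option (Fin 20) × Lp → ℕ), (∀ c ∈ I i, N c = N' c) →
      (N ∈ E i ↔ N' ∈ E i) := by
    intro i N N' h
    refine not_congr ((hGBM M' n β K D hD hK i).2 (Psi N) (Psi N') fun c hc hu => ⟨?_, fun j => ?_⟩)
    · exact h (none, c) ⟨hc, hu⟩
    · exact h (some j, c) ⟨hc, hu⟩
  have hmain := hIND (Option (Fin 20) × Lp) q {v // v ∈ V} (fun i => I i) (fun i => E i) hdis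
    (fun i => hEm i) hloc Finset.univ
  have hset : {ω : Om | ∀ v ∈ V, ¬ GoodB M' n β D v ω} =
      Phi ⁻¹' (⋂ i ∈ (Finset.univ : Finset {v // v ∈ V}), E i) := by
    ext ω
    simp only [Set.mem_preimage, Set.mem_iInter, hE]
    constructor
    · intro h i _
      exact h i i.2
    · intro h v hv
      exact h ⟨v, hv⟩ (Finset.mem_univ _)
  have hlast : (PP α ε) (Phi ⁻¹' ⋂ i ∈ (Finset.univ : Finset {v // v ∈ V}), E i) =
      pois q (⋂ i ∈ (Finset.univ : Finset {v // v ∈ V}), E i) := by
    have hms : MeasurableSet (⋂ i ∈ (Finset.univ : Finset {v // v ∈ V}), E i) :=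
      Finset.measurableSet_biInter _ fun i _ => hEm i
    rw [← hmap, Measure.map_apply meas_Phi hms]
  rw [hset, hlast, hmain]
  rw [Finset.prod_congr rfl fun v _ => hpre v]
  exact (Finset.prod_coe_sort V fun v => pois q (E v))

end Pool.Agent.H32.LP.GBI
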