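import Pool.Agent.H62.LP.T4

/-!
# Row GBP of the board rwl_modules: good blocks, probability
-/

set_option autoImplicit false

open MeasureTheory ProbabilityTheory Filter Topology
open scoped ENNReal NNReal

namespace Pool.Agent.H32.LP.GBP

open Pool.Agent.H62.LP

/-- the ball as a finite set -/
noncomputable def BF (L : ℕ) : Finset V3 := Fintype.piFinset fun _ : Fin 3 => Finset.Icc (-(L : ℤ)) L

theorem mem_BF {L : ℕ} {x : V3} : x ∈ BF L ↔ nm x ≤ L := by
  unfold BF nm
  rw [Fintype.mem_piFinset, Finset.sup_le_iff]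
  constructor
  · intro h i _
    have := h i
    rw [Finset.mem_Icc] at this
    omega
  · intro h i
    have := h i (Finset.mem_univ i)
    rw [Finset.mem_Icc]
    omega

theorem card_BF (L : ℕ) : (BF L).card = (2 * L + 1) ^ 3 := by
  unfold BF
  rw [Fintype.card_piFinset, Finset.prod_const, Finset.card_univ, Fintype.card_fin, Int.card_Icc]
  congr 1
  omega

theorem ver_some (p : Cr) : ver (some p) = (p.1 : Set V3) := by
  ext u
  unfold ver
  constructor
  · rintro ⟨q, hq, hu⟩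
    rw [Option.mem_some_iff] at hq
    rw [hq]
    exact hu
  · intro hu
    exact ⟨p, rfl, hu⟩

theorem relJ_mono {Ω : Type} {J : ℕ} (L L' : V3 → V3 → V3 → Set Ω) (β : ℕ)
    (h : ∀ x y z, nm x ≤ 2 * β → nm y ≤ 2 * β → L x y z ⊆ L' x y z) (ω : Fin J → Ω) (x y : V3)
    (hr : RelJ L β ω x y) : RelJ L' β ω x y := by
  refine Relation.EqvGen.mono ?_ _ _ hr
  rintro a b ⟨h1, h2, j, z, hz, hj⟩
  exact ⟨h1, h2, j, z, hz, h a b z h1 h2 hj⟩

instance (α : ℝ≥0) : IsProbabilityMeasure (soup 3 α) := by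
  unfold soup
  infer_instance

theorem none_bound (hLCR : T_LCR) (K : ℕ) (C : ℝ≥0) (hC : HLC K C) (α : ℝ≥0) (n β : ℕ) (hn : 1 ≤ n)
    (hβ : 1 ≤ β) (D : V3 → (Lp → ℕ) → Option Cr) (hD : CrSel n β K D) (x : V3) (η : ℝ)
    (_hη : 0 ≤ η) (hcr : soup 3 α {N | ¬ Cross n (β * n) N} ≤ ENNReal.ofReal η) :
    soup 3 α {N | D x N = none} ≤ ENNReal.ofReal (Real.exp (α * C) * η) := by
  have h1 : soup 3 α {N | D x N = none} ≤
      soup 3 α {N | ¬ CrL (sc n x) n (β * n) (K * (β * n)) (sp N)} :=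
    measure_mono fun N hN => hD.none x N hN
  have h2 := hLCR K C hC.1 hC.2 α (sc n x) n (β * n) (Nat.mul_pos (by omega) (by omega))
    (Nat.le_mul_of_pos_left n (by omega))
  refine h1.trans ?_
  have h3 : ENNReal.ofReal (Real.exp (α * C)) * ENNReal.ofReal (Real.exp (-(α * C))) = 1 := by
    rw [← ENNReal.ofReal_mul (Real.exp_pos _).le, ← Real.exp_add, add_neg_cancel, Real.exp_zero,
      ENNReal.ofReal_one]
  calc soup 3 α {N | ¬ CrL (sc n x) n (β * n) (K * (β * n)) (sp N)}
      = ENNReal.ofReal (Real.exp (α * C)) * (ENNReal.ofReal (Real.exp (-(α * C))) *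
        soup 3 α {N | ¬ CrL (sc n x) n (β * n) (K * (β * n)) (sp N)}) := by
          rw [← mul_assoc (ENNReal.ofReal _) (ENNReal.ofReal _), h3, one_mul]
    _ ≤ ENNReal.ofReal (Real.exp (α * C)) * ENNReal.ofReal η := by
          gcongr
          exact h2.trans hcr
    _ = _ := by rw [← ENNReal.ofReal_mul (Real.exp_pos _).le]

theorem pf_GBP (hMGF : T_MGF) (hLCR : T_LCR) (hTCH : T_TCH) (hLKP : T_LKP) (hGBM : T_GBM) :
    T_GBP := by
  intro M' ε p hHGL K C hHLC α δ hδ
  obtain ⟨β₀, hβ₀⟩ := hMGF p (4 * M') (δ / 2) hHGL.1 hHGL.2.1 (by linarith)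
  refine ⟨max β₀ (max 17 (2 * M')), fun β hβ => ?_⟩
  have h1 : β₀ ≤ β := (le_max_left _ _).trans hβ
  have h2 : 17 ≤ β := ((le_max_left _ _).trans (le_max_right _ _)).trans hβ
  have h3 : 2 * M' ≤ β := ((le_max_right _ _).trans (le_max_right _ _)).trans hβ
  have hpos : 0 < (((4 * β + 1) ^ 3 : ℕ) : ℝ) * Real.exp (α * C) := by positivity
  refine ⟨δ / 2 / ((((4 * β + 1) ^ 3 : ℕ) : ℝ) * Real.exp (α * C)), by positivity,
    fun n hn hcr D hD v => ?_⟩
  set η : ℝ := δ / 2 / ((((4 * β + 1) ^ 3 : ℕ) : ℝ) * Real.exp (α * C)) with hη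
  have hη0 : 0 ≤ η := by positivity
  set S : Set (Lp → ℕ) := {N | ∃ x, nm x ≤ 2 * β ∧ D (x + v) N = none} with hS
  have hSb : soup 3 α S ≤ ENNReal.ofReal (δ / 2) := by
    have hsub : S ⊆ ⋃ x ∈ BF (2 * β), {N | D (x + v) N = none} := by
      rintro N ⟨x, hx, hN⟩
      rw [Set.mem_iUnion₂]
      exact ⟨x, mem_BF.mpr hx, hN⟩
    calc soup 3 α S ≤ soup 3 α (⋃ x ∈ BF (2 * β), {N | D (x + v) N = none}) := measure_mono hsub
      _ ≤ ∑ x ∈ BF (2 * β), soup 3 α {N | D (x + v) N = none} := measure_biUnion_finset_le _ _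
      _ ≤ ∑ _x ∈ BF (2 * β), ENNReal.ofReal (Real.exp (α * C) * η) :=
          Finset.sum_le_sum fun x _ =>
            none_bound hLCR K C hHLC α n β hn (by omega) D hD (x + v) η hη0 hcr
      _ = ENNReal.ofReal (δ / 2) := by
          rw [Finset.sum_const, card_BF, nsmul_eq_mul, ← ENNReal.ofReal_natCast,
            ← ENNReal.ofReal_mul (Nat.cast_nonneg _)]
          congr 1
          rw [← mul_assoc, hη, show 2 * (2 * β) + 1 = 4 * β + 1 by ring]
          field_simp
  have hm := (hGBM M' n β K D hD (h3.trans (Nat.le_mul_of_pos_left β (by have := hHLC.1; omega)))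
    v).1
  have hm' : MeasurableSet {ω : Om | ¬ GoodB M' n β D v ω} := hm.compl
  have hsec : ∀ N : Lp → ℕ, (Measure.pi (fun _ : Fin 20 => soup 3 ε))
      (Prod.mk N ⁻¹' {ω : Om | ¬ GoodB M' n β D v ω}) ≤
      S.indicator 1 N + ENNReal.ofReal (δ / 2) := by
    intro N
    by_cases hN : N ∈ S
    · rw [Set.indicator_of_mem hN, Pi.one_apply]
      exact prob_le_one.trans le_self_add
    · rw [Set.indicator_of_notMem hN, zero_add]
      have hsome : ∀ x, nm x ≤ 2 * β → ∃ p, D (x + v) N = some p := by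
        intro x hx
        by_contra hcon
        refine hN ⟨x, hx, ?_⟩
        rcases hd : D (x + v) N with _ | q
        · rfl
        · exact absurd ⟨q, hd⟩ hcon
      set d : V3 → Cr := fun x => (D x N).getD (∅, ∅) with hd
      have hdx : ∀ x, nm x ≤ 2 * β → D (x + v) N = some (d (x + v)) := by
        intro x hx
        obtain ⟨q, hq⟩ := hsome x hx
        rw [hd]
        simp only [hq, Option.getD_some]
      have hcrs : ∀ x, nm x ≤ 2 * β →
          IsCr (sc n (x + v)) n (β * n) (K * (β * n)) (d (x + v)) :=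
        fun x hx => (hD.some _ N _ (hdx x hx)).1
      have hT := hTCH n β (K * (β * n)) v d hn hcrs
      have hL := hLKP M' ε p hHGL n β (K * (β * n)) v d hn h2 hcrs
      refine le_trans (measure_mono ?_) (hβ₀ β h1 (Lp → ℕ) (soup 3 ε) _ _ hT hL)
      intro ω hω hall
      apply hω
      refine ⟨fun x hx => ?_, fun x y hx hy => ?_⟩
      · rw [hdx x hx]
        exact Option.some_ne_none _
      · refine relJ_mono _ _ β ?_ ω x y (hall x y hx hy)
        intro a b z ha hb
        unfold LkB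
        simp only [hdx a ha, hdx b hb, ver_some]
        exact Set.Subset.rfl
  calc PP α ε {ω | ¬ GoodB M' n β D v ω}
      = ∫⁻ N, (Measure.pi (fun _ : Fin 20 => soup 3 ε))
          (Prod.mk N ⁻¹' {ω : Om | ¬ GoodB M' n β D v ω}) ∂(soup 3 α) := by
        unfold PP
        exact Measure.prod_apply hm'
    _ ≤ ∫⁻ N, (S.indicator 1 N + ENNReal.ofReal (δ / 2)) ∂(soup 3 α) := lintegral_mono hsec
    _ = ∫⁻ N, S.indicator 1 N ∂(soup 3 α) + ENNReal.ofReal (δ / 2) := by
        rw [lintegral_add_right _ measurable_const, lintegral_const, measure_univ, mul_one]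
    _ ≤ ENNReal.ofReal (δ / 2) + ENNReal.ofReal (δ / 2) := by
        gcongr
        exact (lintegral_indicator_one_le _).trans hSb
    _ = ENNReal.ofReal δ := by
        rw [← ENNReal.ofReal_add (by linarith) (by linarith)]
        congr 1
        ring

end Pool.Agent.H32.LP.GBP
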