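import Pool.Agent.H62.LP.T3

/-!
# Rows RD1, RD2 of the board rwl_modules: one round of merging
-/

set_option autoImplicit false

open MeasureTheory ProbabilityTheory Filter Topology
open scoped ENNReal NNReal

namespace Pool.Agent.H32.LP

open Pool.Agent.H62.LP

/-- the ball as a finite set -/
noncomputable def BF (L : ℕ) : Finset V3 := Fintype.piFinset fun _ : Fin 3 => Finset.Icc (-(L : ℤ)) L

theorem mem_BF {L : ℕ} {x : V3} : x ∈ BF L ↔ nm x ≤ L := by
  unfold BF nm
  rw [Fintype.mem_piFinset, Finset.sup_le_iff]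
  constructor
  · intro h i _
    have := h i
    rw [Finset.mem_Icc] at this
    omega
  · intro h i
    have := h i (Finset.mem_univ i)
    rw [Finset.mem_Icc]
    omega

theorem card_BF (L : ℕ) : (BF L).card = (2 * L + 1) ^ 3 := by
  unfold BF
  rw [Fintype.card_piFinset, Finset.prod_const, Finset.card_univ, Fintype.card_fin, Int.card_Icc]
  congr 1
  omega

theorem cls_eq (E : V3 → V3 → Prop) (L : ℕ) [DecidableEq (Set V3)] :
    cls E L = ((BF L).image fun x => {y | nm y ≤ L ∧ E x y}).card := by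
  unfold cls
  rw [← Set.ncard_coe_finset, Finset.coe_image]
  congr 2
  ext x
  exact mem_BF.symm

theorem pf_RD1 (hS : T_SHL) : T_RD1 := by
  classical
  intro β T hT L b t s E E' hL hb hbL ht hE hE' hEE hF
  by_cases hall : ∀ x y, nm x + b ≤ L → nm y + b ≤ L → E' x y
  · exact Or.inl hall
  right
  set cE : V3 → Set V3 := fun x => {y | nm y ≤ L ∧ E x y} with hcE
  set cE' : V3 → Set V3 := fun x => {y | nm y ≤ L - b ∧ E' x y} with hcE'
  rw [cls_eq, cls_eq]
  change ((BF (L - b)).image cE').card * (s + 1) ≤ ((BF L).image cE).card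
  have hE'c : ∀ x y, E' x y → cE' x = cE' y := by
    intro x y h
    ext z
    constructor
    · rintro ⟨h1, h2⟩
      exact ⟨h1, hE'.trans (hE'.symm h) h2⟩
    · rintro ⟨h1, h2⟩
      exact ⟨h1, hE'.trans h h2⟩
  let G : Set V3 → Finset (Set V3) := fun D => ((BF L).filter fun z => cE' z = D).image cE
  have hdis : ∀ D ∈ (BF (L - b)).image cE', ∀ D' ∈ (BF (L - b)).image cE', D ≠ D' → Disjoint (G D) (G D') := by
    intro D _ D' _ hne
    rw [Finset.disjoint_left]
    intro c h1 h2
    rw [Finset.mem_image] at h1 h2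
    obtain ⟨z, hz, rfl⟩ := h1
    obtain ⟨z', hz', hzz⟩ := h2
    rw [Finset.mem_filter] at hz hz'
    have h3 : z ∈ cE z := ⟨mem_BF.mp hz.1, hE.refl z⟩
    rw [← hzz] at h3
    have h4 := hE'c _ _ (hEE _ _ h3.2)
    exact hne (hz.2.symm.trans (h4.symm.trans hz'.2))
  have hsub : ((BF (L - b)).image cE').biUnion G ⊆ (BF L).image cE := by
    intro c hc
    rw [Finset.mem_biUnion] at hc
    obtain ⟨D, -, hD⟩ := hc
    rw [Finset.mem_image] at hD
    obtain ⟨z, hz, rfl⟩ := hD
    exact Finset.mem_image_of_mem _ (Finset.mem_filter.mp hz).1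
  have hbig : ∀ D ∈ (BF (L - b)).image cE', s + 1 ≤ (G D).card := by
    intro D hD
    rw [Finset.mem_image] at hD
    obtain ⟨x, hx, rfl⟩ := hD
    rw [mem_BF] at hx
    by_contra hcon
    push Not at hcon
    have hxD : x ∈ cE' x := ⟨hx, hE'.refl x⟩
    have hiff : ∀ y, cE' y = cE' x ↔ E' x y := by
      intro y
      constructor
      · intro h
        rw [← h] at hxD
        exact hE'.symm hxD.2
      · intro h
        exact (hE'c _ _ h).symm
    have hrep : ∀ c : Set V3, ∃ z : V3, c ∈ G (cE' x) → nm z ≤ L ∧ cE' z = cE' x ∧ cE z = c := by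
      intro c
      by_cases hc : c ∈ G (cE' x)
      · obtain ⟨z, hz, hzc⟩ := Finset.mem_image.mp hc
        rw [Finset.mem_filter] at hz
        exact ⟨z, fun _ => ⟨mem_BF.mp hz.1, hz.2, hzc⟩⟩
      · exact ⟨0, fun h => absurd h hc⟩
    choose rep hrep using hrep
    set F : Finset V3 := (G (cE' x)).image rep with hFdef
    have hFc : F.card ≤ s := Finset.card_image_le.trans (by omega)
    have hFL : ∀ z ∈ F, nm z ≤ L := by
      intro z hz
      obtain ⟨c, hc, rfl⟩ := Finset.mem_image.mp hz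
      exact (hrep c hc).1
    have hhull : hull E L F = {y | nm y ≤ L ∧ E' x y} := by
      ext y
      constructor
      · rintro ⟨h1, z, hz, h2⟩
        obtain ⟨c, hc, rfl⟩ := Finset.mem_image.mp hz
        exact ⟨h1, hE'.trans ((hiff _).mp (hrep c hc).2.1) (hEE _ _ h2)⟩
      · rintro ⟨h1, h2⟩
        have hc : cE y ∈ G (cE' x) :=
          Finset.mem_image_of_mem _ (Finset.mem_filter.mpr ⟨mem_BF.mpr h1, (hiff y).mpr h2⟩)
        refine ⟨h1, rep (cE y), Finset.mem_image_of_mem _ hc, ?_⟩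
        have h3 : y ∈ cE y := ⟨h1, hE.refl y⟩
        rw [← (hrep _ hc).2.2] at h3
        exact h3.2
    have hxA : x ∈ hull E L F := by
      rw [hhull]
      exact ⟨by omega, hE'.refl x⟩
    have hspot : t ≤ (spot T L (hull E L F)).ncard := by
      by_contra hlt
      push Not at hlt
      have h1 := hS β T hT L b t (hull E L F) hL hb ht hlt ⟨x, hxA, by omega⟩
      apply hall
      intro y z hy hz
      have h2 := h1 y hy
      have h3 := h1 z hz
      rw [hhull] at h2 h3
      exact hE'.trans (hE'.symm h2.2) h3.2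
    obtain ⟨z, y, h1, h2, h3, h4⟩ := hF F hFc hFL hspot
    rw [hhull] at h1 h2
    exact h2 ⟨h3, hE'.trans h1.2 h4⟩
  calc ((BF (L - b)).image cE').card * (s + 1) = ∑ _D ∈ (BF (L - b)).image cE', (s + 1) := by
        rw [Finset.sum_const, smul_eq_mul]
    _ ≤ ∑ D ∈ (BF (L - b)).image cE', (G D).card := Finset.sum_le_sum hbig
    _ = (((BF (L - b)).image cE').biUnion G).card := (Finset.card_biUnion hdis).symm
    _ ≤ _ := Finset.card_le_card hsub

/-- the number of small subsets -/
theorem card_small {α : Type} [DecidableEq α] (B : Finset α) (s : ℕ) :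
    (B.powerset.filter fun F => F.card ≤ s).card ≤ (B.card + 1) ^ s := by
  classical
  have h1 : (Fintype.piFinset fun _ : Fin s => B.insertNone).card = (B.card + 1) ^ s := by
    rw [Fintype.card_piFinset, Finset.prod_const, Finset.card_univ, Fintype.card_fin, Finset.card_insertNone]
  rw [← h1]
  apply Finset.card_le_card_of_surjOn (fun g : Fin s → Option α => B.filter fun b => ∃ i, g i = some b)
  intro F hF
  rw [Finset.mem_coe, Finset.mem_filter, Finset.mem_powerset] at hF
  refine ⟨fun i => if h : (i : ℕ) < F.card then some (F.equivFin.symm ⟨i, h⟩ : α) else none, ?_, ?_⟩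
  · rw [Finset.mem_coe, Fintype.mem_piFinset]
    intro i
    by_cases h : (i : ℕ) < F.card
    · simp only [dif_pos h]
      rw [Finset.some_mem_insertNone]
      exact hF.1 (F.equivFin.symm ⟨i, h⟩).2
    · simp only [dif_neg h]
      exact Finset.none_mem_insertNone
  · ext b
    simp only [Finset.mem_filter]
    constructor
    · rintro ⟨-, i, hi⟩
      by_cases h : (i : ℕ) < F.card
      · rw [dif_pos h, Option.some_inj] at hi
        rw [← hi]
        exact (F.equivFin.symm ⟨i, h⟩).2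
      · rw [dif_neg h] at hi
        exact absurd hi (by simp)
    · intro hb
      refine ⟨hF.1 hb, ?_⟩
      have hlt := (F.equivFin ⟨b, hb⟩).2
      refine ⟨⟨(F.equivFin ⟨b, hb⟩ : ℕ), lt_of_lt_of_le hlt hF.2⟩, ?_⟩
      rw [dif_pos hlt]
      simp

theorem pf_RD2 (hSEP : T_SEP) : T_RD2 := by
  classical
  intro Ω _ P _ β K₀ p T Lnk hp hp1 hLnk L t s E hL
  set Ev : Finset V3 → Set Ω := fun F => {ω | t ≤ (spot T L (hull E L F)).ncard ∧ ∀ x y z, x ∈ hull E L F →
    y ∉ hull E L F → nm y ≤ L → nm z ≤ 2 * β → ω ∉ Lnk x y z} with hEv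
  set 𝓕 := (BF L).powerset.filter fun F => F.card ≤ s with h𝓕
  have hsub : {ω | ∃ F : Finset V3, F.card ≤ s ∧ (∀ x ∈ F, nm x ≤ L) ∧
      t ≤ (spot T L (hull E L F)).ncard ∧ ∀ x y z, x ∈ hull E L F → y ∉ hull E L F → nm y ≤ L →
        nm z ≤ 2 * β → ω ∉ Lnk x y z} ⊆ ⋃ F ∈ 𝓕, Ev F := by
    rintro ω ⟨F, h1, h2, h3, h4⟩
    rw [Set.mem_iUnion₂]
    refine ⟨F, ?_, h3, h4⟩
    rw [h𝓕, Finset.mem_filter, Finset.mem_powerset]
    exact ⟨fun x hx => mem_BF.mpr (h2 x hx), h1⟩
  have hone : ∀ F : Finset V3, P (Ev F) ≤ ENNReal.ofReal ((1 - p) ^ (t / (2 * K₀ + 1) ^ 3)) := by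
    intro F
    by_cases ht : t ≤ (spot T L (hull E L F)).ncard
    · have hfin : (spot T L (hull E L F)).Finite := by
        refine (Finset.finite_toSet (BF L)).subset ?_
        intro z hz
        exact mem_BF.mpr hz.1
      set Z := hfin.toFinset with hZ
      have hZc : t ≤ Z.card := by
        rw [hZ, ← Set.ncard_eq_toFinset_card _ hfin]
        exact ht
      obtain ⟨Z', hZ'Z, hsep, hcard⟩ := hSEP K₀ Z
      have hch : ∀ z : V3, ∃ x y : V3, z ∈ Z' → x ∈ hull E L F ∧ y ∉ hull E L F ∧ nm x ≤ L ∧ nm y ≤ L ∧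
          near T x y z := by
        intro z
        by_cases hz : z ∈ Z'
        · obtain ⟨-, x, y, h⟩ := hfin.mem_toFinset.mp (hZ'Z hz)
          exact ⟨x, y, fun _ => h⟩
        · exact ⟨0, 0, fun h => absurd h hz⟩
      choose x y hxy using hch
      have hb := hLnk.2 Z' x y (fun z hz => by
        have hz1 := (hfin.mem_toFinset.mp (hZ'Z hz)).1
        obtain ⟨_, _, h3, h4, h5⟩ := hxy z hz
        exact ⟨by omega, by omega, by omega, h5⟩) hsep
      have hmono : Ev F ⊆ {ω | ∀ z ∈ Z', ω ∉ Lnk (x z) (y z) z} := by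
        rintro ω ⟨-, hω⟩ z hz
        have hz1 := (hfin.mem_toFinset.mp (hZ'Z hz)).1
        obtain ⟨h1, h2, h3, h4, -⟩ := hxy z hz
        exact hω _ _ _ h1 h2 h4 (by omega)
      refine (measure_mono hmono).trans (hb.trans (ENNReal.ofReal_le_ofReal ?_))
      apply pow_le_pow_of_le_one (by linarith) (by linarith)
      exact Nat.div_le_of_le_mul (by rw [mul_comm]; exact hZc.trans hcard)
    · have : Ev F = ∅ := by
        ext ω
        simp only [hEv, Set.mem_setOf_eq, Set.mem_empty_iff_false, iff_false]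
        exact fun h => ht h.1
      rw [this, measure_empty]
      exact zero_le
  have hc : 𝓕.card ≤ ((4 * β + 1) ^ 3 + 1) ^ s := by
    refine (card_small (BF L) s).trans (Nat.pow_le_pow_left ?_ s)
    rw [card_BF]
    exact Nat.add_le_add_right (Nat.pow_le_pow_left (by omega) 3) 1
  calc P _ ≤ P (⋃ F ∈ 𝓕, Ev F) := measure_mono hsub
    _ ≤ ∑ F ∈ 𝓕, P (Ev F) := measure_biUnion_finset_le _ _
    _ ≤ ∑ _F ∈ 𝓕, ENNReal.ofReal ((1 - p) ^ (t / (2 * K₀ + 1) ^ 3)) := Finset.sum_le_sum fun F _ => hone F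
    _ = (𝓕.card : ℝ≥0∞) * ENNReal.ofReal ((1 - p) ^ (t / (2 * K₀ + 1) ^ 3)) := by
        rw [Finset.sum_const, nsmul_eq_mul]
    _ ≤ ((((4 * β + 1) ^ 3 + 1) ^ s : ℕ) : ℝ≥0∞) * ENNReal.ofReal ((1 - p) ^ (t / (2 * K₀ + 1) ^ 3)) := by
        gcongr
    _ = ENNReal.ofReal (qq β s t K₀ p) := by
        unfold qq
        rw [ENNReal.ofReal_mul (by positivity), ← ENNReal.ofReal_natCast]
        push_cast
        rfl

end Pool.Agent.H32.LP
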