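import Pool.Agent.H62.LP.T3

/-!
# Row RLM of the board rwl_modules: measurability of the final relation
-/

set_option autoImplicit false

open MeasureTheory ProbabilityTheory Filter Topology
open scoped ENNReal NNReal

namespace Pool.Agent.H32.LP

open Pool.Agent.H62.LP

/-- chains of length `n` -/
def chn {α : Type} (r : α → α → Prop) : ℕ → α → α → Prop
  | 0, a, b => a = b
  | n + 1, a, b => ∃ c, chn r n a c ∧ (r c b ∨ r b c)

theorem eqvGen_iff {α : Type} (r : α → α → Prop) (a b : α) : Relation.EqvGen r a b ↔ ∃ n, chn r n a b := by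
  have hsym : ∀ n a b, chn r n a b → Relation.ReflTransGen (fun x y => r x y ∨ r y x) a b := by
    intro n
    induction n with
    | zero =>
      rintro a b rfl
      exact Relation.ReflTransGen.refl
    | succ n ih =>
      rintro a b ⟨c, h1, h2⟩
      exact (ih a c h1).tail h2
  have hback : ∀ a b, Relation.ReflTransGen (fun x y => r x y ∨ r y x) a b → ∃ n, chn r n a b := by
    intro a b h
    induction h with
    | refl => exact ⟨0, rfl⟩
    | @tail c d _ h2 ih =>
      obtain ⟨n, hn⟩ := ih
      exact ⟨n + 1, c, hn, h2⟩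
  have hs : ∀ a b, Relation.ReflTransGen (fun x y => r x y ∨ r y x) a b →
      Relation.ReflTransGen (fun x y => r x y ∨ r y x) b a := by
    intro a b h
    induction h with
    | refl => exact Relation.ReflTransGen.refl
    | @tail c d _ h2 ih => exact Relation.ReflTransGen.head h2.symm ih
  constructor
  · intro h
    apply hback
    induction h with
    | rel x y h => exact Relation.ReflTransGen.single (Or.inl h)
    | refl x => exact Relation.ReflTransGen.refl
    | symm x y _ ih => exact hs _ _ ih
    | trans x y z _ _ ih1 ih2 => exact ih1.trans ih2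
  · rintro ⟨n, hn⟩
    induction n generalizing b with
    | zero =>
      have hab : a = b := hn
      rw [hab]
      exact Relation.EqvGen.refl b
    | succ n ih =>
      obtain ⟨c, h1, h2⟩ := hn
      refine Relation.EqvGen.trans _ _ _ (ih c h1) ?_
      rcases h2 with h2 | h2
      · exact Relation.EqvGen.rel _ _ h2
      · exact Relation.EqvGen.symm _ _ (Relation.EqvGen.rel _ _ h2)

theorem meas_eqvGen {Ω α : Type} [MeasurableSpace Ω] [Countable α] (r : Ω → α → α → Prop)
    (hr : ∀ a b, MeasurableSet {ω | r ω a b}) (a b : α) : MeasurableSet {ω | Relation.EqvGen (r ω) a b} := by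
  have h1 : ∀ (n : ℕ) (b : α), MeasurableSet {ω | chn (r ω) n a b} := by
    intro n
    induction n with
    | zero =>
      intro b
      exact MeasurableSet.const (a = b)
    | succ n ih =>
      intro b
      have e : {ω | chn (r ω) (n + 1) a b} = ⋃ c, ({ω | chn (r ω) n a c} ∩ ({ω | r ω c b} ∪ {ω | r ω b c})) := by
        ext ω
        simp only [Set.mem_setOf_eq, Set.mem_iUnion, Set.mem_inter_iff, Set.mem_union]
        exact Iff.rfl
      rw [e]
      exact MeasurableSet.iUnion fun c => (ih c).inter ((hr c b).union (hr b c))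
  have e : {ω | Relation.EqvGen (r ω) a b} = ⋃ n, {ω | chn (r ω) n a b} := by
    ext ω
    rw [Set.mem_setOf_eq, eqvGen_iff, Set.mem_iUnion]
    exact Iff.rfl
  rw [e]
  exact MeasurableSet.iUnion fun n => h1 n b

theorem pf_RLM : T_RLM := by
  intro Ω _ J β Lnk hL x y
  unfold RelJ
  apply meas_eqvGen
  intro a b
  have e : {ω : Fin J → Ω | nm a ≤ 2 * β ∧ nm b ≤ 2 * β ∧
      ∃ (j : Fin J) (z : V3), nm z ≤ 2 * β ∧ ω j ∈ Lnk a b z} =
      {ω : Fin J → Ω | nm a ≤ 2 * β} ∩ ({ω : Fin J → Ω | nm b ≤ 2 * β} ∩
        ⋃ (j : Fin J), ⋃ (z : V3), ({ω : Fin J → Ω | nm z ≤ 2 * β} ∩ (fun ω : Fin J → Ω => ω j) ⁻¹' Lnk a b z)) := by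
    ext ω
    simp only [Set.mem_setOf_eq, Set.mem_iUnion, Set.mem_inter_iff, Set.mem_preimage]
  rw [e]
  exact (MeasurableSet.const _).inter ((MeasurableSet.const _).inter
    (MeasurableSet.iUnion fun j => MeasurableSet.iUnion fun z =>
      (MeasurableSet.const _).inter ((measurable_pi_apply j) (hL a b z))))

end Pool.Agent.H32.LP
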