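import Pool.Agent.H62.LP.T4
import Pool.Agent.H57.LP.SPH

/-!
# Row TCH of the board rwl_modules: the touched boxes
-/

set_option autoImplicit false

open MeasureTheory ProbabilityTheory Filter Topology
open scoped ENNReal NNReal

namespace Pool.Agent.H32.LP

open Pool.Agent.H62.LP

theorem nmle {x : V3} {k : ℕ} : nm x ≤ k ↔ ∀ i, (x i).natAbs ≤ k := by
  unfold nm
  rw [Finset.sup_le_iff]
  exact ⟨fun h i => h i (Finset.mem_univ i), fun h i _ => h i⟩

theorem nm_attained (x : V3) : ∃ i, (x i).natAbs = nm x := by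
  obtain ⟨i, -, hi⟩ := Finset.exists_mem_eq_sup Finset.univ ⟨(0 : Fin 3), Finset.mem_univ _⟩
    (fun i => (x i).natAbs)
  exact ⟨i, hi.symm⟩

theorem nm_tri (a b : V3) : nm (a + b) ≤ nm a + nm b := by
  rw [nmle]
  intro i
  have h1 := nmle.mp (le_refl (nm a)) i
  have h2 := nmle.mp (le_refl (nm b)) i
  simp only [Pi.add_apply]
  omega

theorem nm_symm (a b : V3) : nm (a - b) = nm (b - a) := by
  unfold nm
  congr 1
  funext i
  simp only [Pi.sub_apply]
  omega

theorem ivt (D : Set V3) (hD : IsConn D) (o u₁ u₂ : V3) (h1 : u₁ ∈ D) (h2 : u₂ ∈ D) (k : ℕ)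
    (hk1 : nm (u₁ - o) ≤ k) (hk2 : k ≤ nm (u₂ - o)) : ∃ u ∈ D, nm (u - o) = k := by
  have key : ∀ v, Relation.ReflTransGen (fun u v => u ∈ D ∧ v ∈ D ∧ Adj u v) u₁ v →
      ∀ k, nm (u₁ - o) ≤ k → k ≤ nm (v - o) → ∃ u ∈ D, nm (u - o) = k := by
    intro v hv
    induction hv with
    | refl =>
      intro k hk hk'
      exact ⟨u₁, h1, le_antisymm hk hk'⟩
    | @tail b c hab hbc ih =>
      intro k hk hk'
      by_cases h : k ≤ nm (b - o)
      · exact ih k hk h
      · refine ⟨c, hbc.2.1, ?_⟩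
        have := Pool.Agent.H57.LP.nm_step b c o hbc.2.2
        omega
  exact key u₂ (hD u₁ h1 u₂ h2) k hk1 hk2

theorem nm_sc_sub (n : ℕ) (a b : V3) (h : nm (a - b) ≤ 1) : nm (sc n a - sc n b) ≤ n := by
  rw [nmle]
  intro i
  have h1 := nmle.mp h i
  simp only [sc, Pi.sub_apply] at h1 ⊢
  rw [← mul_sub, Int.natAbs_mul, Int.natAbs_natCast]
  exact (Nat.mul_le_mul_left n h1).trans (by rw [mul_one])

theorem pf_TCH : T_TCH := by
  intro n β r v d hn hd
  constructor
  · intro x hx
    obtain ⟨u, hu, hu2⟩ := (hd x hx).2.2.1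
    exact ⟨u, hu, hu2⟩
  · intro x y hx hy hxy r' h2 hr
    obtain ⟨-, hcon, ⟨u₁, hu₁, h₁⟩, ⟨u₂, hu₂, h₂⟩, -⟩ := hd y hy
    have hsc : nm (sc n (y + v) - sc n (x + v)) ≤ n := by
      apply nm_sc_sub
      rw [add_sub_add_right_eq_sub, nm_symm]
      exact hxy
    have hsc' : nm (sc n (x + v) - sc n (y + v)) ≤ n := by
      rw [nm_symm]
      exact hsc
    have ha : nm (u₁ - sc n (x + v)) ≤ n * r' := by
      have h := nm_tri (u₁ - sc n (y + v)) (sc n (y + v) - sc n (x + v))
      rw [sub_add_sub_cancel] at h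
      nlinarith
    have hb : n * r' ≤ nm (u₂ - sc n (x + v)) := by
      have h := nm_tri (u₂ - sc n (x + v)) (sc n (x + v) - sc n (y + v))
      rw [sub_add_sub_cancel] at h
      nlinarith
    obtain ⟨u, hu, hur⟩ := ivt _ hcon (sc n (x + v)) u₁ u₂ hu₁ hu₂ (n * r') ha hb
    have hw : ∀ i, (u - sc n (x + v)) i = u i - n * (x i + v i) := fun i => rfl
    refine ⟨fun i => x i + (u i - n * (x i + v i)).tdiv n, ⟨u, hu, ?_⟩, ?_⟩
    · rw [nmle]
      intro i
      have e : (u - sc n ((fun i => x i + (u i - n * (x i + v i)).tdiv n) + v)) i =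
          (u i - n * (x i + v i)).tmod n := by
        have := Int.mul_tdiv_add_tmod (u i - n * (x i + v i)) n
        simp only [sc, Pi.sub_apply, Pi.add_apply]
        linarith
      rw [e, Int.natAbs_tmod, Int.natAbs_natCast]
      exact (Nat.mod_lt _ (by omega)).le
    · apply le_antisymm
      · rw [nmle]
        intro i
        have h := nmle.mp hur.le i
        rw [hw] at h
        simp only [Pi.sub_apply, add_sub_cancel_left]
        rw [Int.natAbs_tdiv, Int.natAbs_natCast]
        exact Nat.div_le_of_le_mul h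
      · obtain ⟨i, hi⟩ := nm_attained (u - sc n (x + v))
        have h := nmle.mp (le_refl (nm ((fun i => x i + (u i - n * (x i + v i)).tdiv n) - x))) i
        simp only [Pi.sub_apply, add_sub_cancel_left] at h
        rw [Int.natAbs_tdiv, Int.natAbs_natCast] at h
        rw [hw, hur] at hi
        rw [hi] at h
        change n * r' / n ≤ _ at h
        rw [Nat.mul_div_cancel_left _ (by omega)] at h
        exact h

end Pool.Agent.H32.LP
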